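import Pool.Agent.H80.PK.GStmts

/-!
# Board `pkt` (MP_70b9d9_an), row GRO (helper2)
-/

set_option autoImplicit false

namespace Pool.PK

open MeasureTheory Filter Topology UniformSpace
open scoped Pointwise ENNReal

theorem GRO (hABS : ABSStmt) (hLSN : LSNStmt) (hHLD : HLDStmt) (hOPA : OPAStmt)
    (hSPM : SPMStmt) : GROStmt := by
  intro G _ _ _ _ _ _ _ μ _ hsub p hp n X hX
  -- the compact set
  let K : Set G := {1} ∪ ⋃ i : Fin n, ⋃ j : Fin n, tsupport ((X i j).snd : CG μ).1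
  have hK : IsCompact K := by
    refine isCompact_singleton.union ?_
    exact isCompact_iUnion fun i => isCompact_iUnion fun j => ((X i j).snd : CG μ).2.2
  have h1K : (1 : G) ∈ K := Or.inl rfl
  have hKk : ∀ k : ℕ, IsCompact (K ^ k) := by
    intro k
    induction k with
    | zero =>
      rw [pow_zero]
      exact isCompact_singleton
    | succ k ih =>
      rw [pow_succ]
      exact ih.mul hK
  obtain ⟨hM, hMmul, hVmul, -⟩ := hOPA G μ p hp
  refine hABS (CG μ) (lpn μ 1) (opn μ p) (lpn μ p) (fun k => suppIn μ (K ^ k))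
    (fun k => 1 + (μ (K ^ k)).toReal) (hLSN G μ 1 le_rfl).1 hM (hLSN G μ p hp).1 hMmul hVmul
    ?_ ?_ ?_ ?_ ?_ n X ?_ hX
  · intro k f hf x hx
    refine hf x fun hxk => hx ?_
    rw [pow_succ]
    exact ⟨x, hxk, 1, h1K, mul_one x⟩
  · intro j k f hf h hh
    have h1 := hSPM G μ (K ^ j) (K ^ k) f hf h hh
    rw [← pow_add] at h1
    exact h1
  · intro k
    have := ENNReal.toReal_nonneg (a := μ (K ^ k))
    show 0 ≤ 1 + (μ (K ^ k)).toReal
    linarith
  · intro k f hf
    exact hHLD G μ p hp (K ^ k) (hKk k) f hf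
  · intro c hc
    obtain ⟨A, hA⟩ := hsub K hK c hc
    refine ⟨1 + A, fun k => ?_⟩
    have h1 : 1 ≤ c ^ k := one_le_pow₀ hc.le
    have h2 := hA k
    show 1 + (μ (K ^ k)).toReal ≤ (1 + A) * c ^ k
    nlinarith
  · intro i j x hx
    refine image_eq_zero_of_notMem_tsupport fun hxt => hx ?_
    rw [pow_one]
    exact Or.inr (Set.mem_iUnion.2 ⟨i, Set.mem_iUnion.2 ⟨j, hxt⟩⟩)

end Pool.PK
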