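import Pool.Agent.H80.PK.GStmts

/-!
# Board `pkt` (MP_70b9d9_an), row STR (helper2)
-/

set_option autoImplicit false

namespace Pool.PK

open MeasureTheory Filter Topology UniformSpace
open scoped Pointwise ENNReal

theorem STR : STRStmt := by
  intro G _ _ _ _ _ _ _ μ _
  refine ⟨?_, ?_, ?_, ?_⟩
  · intro f g
    apply Subtype.ext
    funext x
    change (starRingEnd ℂ) (f.1 x⁻¹ + g.1 x⁻¹) = (starRingEnd ℂ) (f.1 x⁻¹) + (starRingEnd ℂ) (g.1 x⁻¹)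
    rw [map_add]
  · intro c f
    apply Subtype.ext
    funext x
    change (starRingEnd ℂ) (c * f.1 x⁻¹) = (starRingEnd ℂ) c * (starRingEnd ℂ) (f.1 x⁻¹)
    rw [map_mul]
  · intro f g
    apply Subtype.ext
    funext x
    change (starRingEnd ℂ) (∫ y, f.1 y * g.1 (y⁻¹ * x⁻¹) ∂μ) =
      ∫ y, (starRingEnd ℂ) (g.1 y⁻¹) * (starRingEnd ℂ) (f.1 (y⁻¹ * x)⁻¹) ∂μ
    rw [← integral_conj,
      ← integral_mul_left_eq_self (μ := μ)
        (fun y => (starRingEnd ℂ) (g.1 y⁻¹) * (starRingEnd ℂ) (f.1 (y⁻¹ * x)⁻¹)) x]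
    refine integral_congr_ae (Eventually.of_forall fun z => ?_)
    have e1 : ((x * z)⁻¹ * x)⁻¹ = z := by group
    have e2 : (x * z)⁻¹ = z⁻¹ * x⁻¹ := mul_inv_rev x z
    change (starRingEnd ℂ) (f.1 z * g.1 (z⁻¹ * x⁻¹)) =
      (starRingEnd ℂ) (g.1 (x * z)⁻¹) * (starRingEnd ℂ) (f.1 ((x * z)⁻¹ * x)⁻¹)
    rw [e1, e2, map_mul, mul_comm]
  · intro f
    apply Subtype.ext
    funext x
    change (starRingEnd ℂ) ((starRingEnd ℂ) (f.1 x⁻¹⁻¹)) = f.1 x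
    rw [Complex.conj_conj, inv_inv]

end Pool.PK
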